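import Pool.Agent.Q284.MK.TM

/-!
# Migdal-Kadanoff project: the eighth central moment of `T a`
-/

namespace Pool.Agent.Q284.MK

open Pool.Agent.Q291.MK

/-- Convexity of the eighth power. -/
lemma eighth_add (A B : ℝ) : (A + B) ^ 8 ≤ (101/100) ^ 7 * A ^ 8 + 101 ^ 7 * B ^ 8 := by
  have h := (Even.convexOn_pow (𝕜 := ℝ) (n := 8) (by decide)).2 (Set.mem_univ (101/100 * A))
    (Set.mem_univ (101 * B)) (by norm_num : (0:ℝ) ≤ 100/101) (by norm_num : (0:ℝ) ≤ 1/101)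
    (by norm_num)
  simp only [smul_eq_mul] at h
  have e1 : (100:ℝ)/101 * (101/100 * A) + 1/101 * (101 * B) = A + B := by ring
  rw [e1] at h
  refine h.trans (le_of_eq ?_)
  ring

lemma hm_upper (K L : ℕ) (m : ℝ) :
    hm K L - m/2 ≤ max |(K:ℝ) - m| |(L:ℝ) - m| / 2 + 1/8 := by
  have hk : (0:ℝ) ≤ K := Nat.cast_nonneg K
  have hl : (0:ℝ) ≤ L := Nat.cast_nonneg L
  have h1 : hm K L ≤ ((K:ℝ) + L) / 4 := by
    unfold hm
    rw [div_le_iff₀ (den_pos K L)]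
    nlinarith [sq_nonneg ((K:ℝ) - L)]
  have h2 : (K:ℝ) - m ≤ max |(K:ℝ) - m| |(L:ℝ) - m| := (le_abs_self _).trans (le_max_left _ _)
  have h3 : (L:ℝ) - m ≤ max |(K:ℝ) - m| |(L:ℝ) - m| := (le_abs_self _).trans (le_max_right _ _)
  linarith

lemma hm_lower (K L : ℕ) (m : ℝ) :
    m/2 - hm K L ≤ max |(K:ℝ) - m| |(L:ℝ) - m| / 2 + 1/8 := by
  have hk : (0:ℝ) ≤ K := Nat.cast_nonneg K
  have hl : (0:ℝ) ≤ L := Nat.cast_nonneg L
  have h2 : -((K:ℝ) - m) ≤ max |(K:ℝ) - m| |(L:ℝ) - m| := (neg_le_abs _).trans (le_max_left _ _)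
  have h3 : -((L:ℝ) - m) ≤ max |(K:ℝ) - m| |(L:ℝ) - m| := (neg_le_abs _).trans (le_max_right _ _)
  rcases le_total (K:ℝ) L with hkl | hkl
  · have h1 : (K:ℝ) / 2 - 1/8 ≤ hm K L := by
      unfold hm
      rw [le_div_iff₀ (den_pos K L)]
      nlinarith [mul_nonneg hk (by linarith : (0:ℝ) ≤ L - K)]
    linarith
  · have h1 : (L:ℝ) / 2 - 1/8 ≤ hm K L := by
      unfold hm
      rw [le_div_iff₀ (den_pos K L)]
      nlinarith [mul_nonneg hl (by linarith : (0:ℝ) ≤ K - L)]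
    linarith

lemma hm_eighth {K L : ℕ} {m m1 : ℝ} (h0 : 0 ≤ m/2 - m1) (h1 : m/2 - m1 ≤ 1) :
    (hm K L - m1) ^ 8 ≤ (101/100) ^ 7 / 256 * (((K:ℝ) - m) ^ 8 + ((L:ℝ) - m) ^ 8) +
      101 ^ 7 * (9/8) ^ 8 := by
  set t := max |(K:ℝ) - m| |(L:ℝ) - m| with ht
  have ha : |hm K L - m1| ≤ t / 2 + 9/8 := by
    have h2 := hm_upper K L m
    have h3 := hm_lower K L m
    rw [← ht] at h2 h3
    rw [abs_le]; constructor <;> linarith
  have ht0 : 0 ≤ t := (abs_nonneg _).trans (le_max_left _ _)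
  have h4 : (hm K L - m1) ^ 8 ≤ (t/2 + 9/8) ^ 8 := by
    have : (hm K L - m1) ^ 8 = |hm K L - m1| ^ 8 := (Even.pow_abs (by decide) _).symm
    rw [this]; exact pow_le_pow_left₀ (abs_nonneg _) ha 8
  have h5 := eighth_add (t/2) (9/8)
  have h6 : t ^ 8 ≤ ((K:ℝ) - m) ^ 8 + ((L:ℝ) - m) ^ 8 := by
    have e1 : 0 ≤ ((K:ℝ) - m) ^ 8 := Even.pow_nonneg (by decide) _
    have e2 : 0 ≤ ((L:ℝ) - m) ^ 8 := Even.pow_nonneg (by decide) _
    rcases max_choice |(K:ℝ) - m| |(L:ℝ) - m| with h | h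
    · rw [ht, h, Even.pow_abs (by decide)]; linarith
    · rw [ht, h, Even.pow_abs (by decide)]; linarith
  have h7 : (t/2) ^ 8 = t ^ 8 / 256 := by ring
  rw [h7] at h5
  calc (hm K L - m1) ^ 8 ≤ (t/2 + 9/8) ^ 8 := h4
    _ ≤ _ := h5
    _ ≤ _ := by nlinarith

lemma H_eighth (h1 : P_HYP1) (h2 : P_HYP2) (K L : ℕ) (c : ℝ) :
    H K L (fun j => ((j:ℝ) - c) ^ 8) ≤
      (101/100) ^ 7 * (hm K L - c) ^ 8 + 101 ^ 7 * (110000 * ((K:ℝ) + 1) ^ 4) := by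
  obtain ⟨hnn, -, -, hone, -⟩ := h1 K L
  obtain ⟨-, -, h8⟩ := h2 K L
  have e : H K L (fun j => ((j:ℝ) - c) ^ 8) ≤
      (101/100) ^ 7 * (hm K L - c) ^ 8 * H K L (fun _ => 1) +
        101 ^ 7 * H K L (fun j => ((j:ℝ) - hm K L) ^ 8) := by
    unfold H
    simp only [Finset.mul_sum, ← Finset.sum_add_distrib]
    refine Finset.sum_le_sum fun j _ => ?_
    have h := eighth_add (hm K L - c) ((j:ℝ) - hm K L)
    have e1 : hm K L - c + ((j:ℝ) - hm K L) = (j:ℝ) - c := by ring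
    rw [e1] at h
    have := mul_le_mul_of_nonneg_left h (hnn j)
    linarith
  rw [hone] at e
  linarith

lemma t8_arith {mu m1 D8 C8 e4 e8 M8 : ℝ} (hmu : 100 ≤ mu) (hmuD : D8 ≤ mu) (hC8 : 10 ^ 23 ≤ C8)
    (hm1 : mu/2 - 1 ≤ m1) (he4 : e4 ≤ D8 * mu ^ 2) (he8 : e8 ≤ 10 * M8 + mu ^ 4)
    (hM8 : M8 ≤ C8 * mu ^ 4) :
    (101/100) ^ 7 * ((101/100) ^ 7 / 256 * e8 + 101 ^ 7 * (9/8) ^ 8) +
      101 ^ 7 * (110000 * (8 * (e4 + (mu + 1) ^ 4))) ≤ C8 * m1 ^ 4 := by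
  have h1 : (49/100 * mu) ^ 4 ≤ m1 ^ 4 := pow_le_pow_left₀ (by linarith) (by linarith) 4
  have h2 : (mu + 1) ^ 4 ≤ 2 * mu ^ 4 := by
    have : (mu + 1) ^ 4 ≤ (101/100 * mu) ^ 4 := pow_le_pow_left₀ (by linarith) (by linarith) 4
    have h3 : (101/100 * mu) ^ 4 = (101/100) ^ 4 * mu ^ 4 := by ring
    rw [h3] at this
    have h4 : 0 ≤ mu ^ 4 := by positivity
    nlinarith
  have hmu2 : mu ^ 2 = mu * mu := by ring
  have hmu4 : mu ^ 4 = mu ^ 2 * mu ^ 2 := by ring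
  have h3 : e4 ≤ mu ^ 4 := by
    refine he4.trans ?_
    have : D8 * mu ^ 2 ≤ mu ^ 2 * mu ^ 2 := by
      refine mul_le_mul_of_nonneg_right ?_ (by positivity)
      nlinarith
    linarith
  have h4 : (1:ℝ) ≤ mu ^ 4 := one_le_pow₀ (by linarith)
  set q := mu ^ 4 with hq
  have h5 : C8 * (49/100 * mu) ^ 4 ≤ C8 * m1 ^ 4 := mul_le_mul_of_nonneg_left h1 (by linarith)
  have h6 : C8 * (49/100 * mu) ^ 4 = (49/100) ^ 4 * (C8 * q) := by rw [hq]; ring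
  have h7 : (10:ℝ) ^ 23 * q ≤ C8 * q := mul_le_mul_of_nonneg_right hC8 (by linarith)
  rw [h6] at h5
  refine le_trans ?_ h5
  have h8 : e8 ≤ 10 * (C8 * q) + q := by linarith
  norm_num at h7 ⊢
  nlinarith

theorem t_T8 (h1 : P_HYP1) (h2 : P_HYP2) (h3 : P_TLAW) (h4 : P_EXP) (h5 : P_TM) : P_T8 := by
  refine ⟨10 ^ 23, by norm_num, fun C8 hC8 C3 hC3 => ?_⟩
  have hC81 : 1 ≤ C8 := by
    have : (1:ℝ) ≤ 10 ^ 23 := by norm_num
    linarith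
  obtain ⟨D8, hD8, h⟩ := h4 C8 hC81
  obtain ⟨D, M, hD, hM, h⟩ := h C3 hC3
  obtain ⟨D', M', hD', hM', h'⟩ := h5 C3 C8 hC3 hC81
  refine ⟨100 + M + M' + D8 + 8 * D', by linarith, fun a ha hm' => ?_⟩
  obtain ⟨-, -, -, -, -, -, -, -, -, -, e11, e12⟩ := h a ha (by linarith)
  obtain ⟨f1, f2⟩ := h' a ha (by linarith)
  have hAM : AM a := ha.toAM
  obtain ⟨hT, hE⟩ := h3 a hAM
  have hmu : 100 ≤ mean a := by linarith
  have hmu0 : 0 < mean a := by linarith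
  have hV0 := vr_nonneg hAM
  have hVm0 : 0 ≤ vr a / mean a := by positivity
  have hVm : vr a / mean a ≤ 1 := by rw [div_le_one hmu0]; exact ha.vr_le
  have hDm : D' / mean a ≤ 1/8 := by rw [div_le_iff₀ hmu0]; linarith
  rw [abs_le] at f1
  set m1 := mean (T a) with hm1
  have g0 : 0 ≤ mean a / 2 - m1 := by linarith
  have g1 : mean a / 2 - m1 ≤ 1 := by linarith
  have hPB : PB (fun k => ((k:ℝ) - m1) ^ 8) := (PB.id.sub (PB.const m1)).pow 8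
  obtain ⟨hp, he⟩ := hE _ hPB
  have hm8 : m8 (T a) = Ew a (fun K L => H K L (fun k => ((k:ℝ) - m1) ^ 8)) := he
  have p8 : PB2 (fun K L => ((K:ℝ) - mean a) ^ 8 + ((L:ℝ) - mean a) ^ 8) :=
    (((pbK.sub (PB2.const _)).pow 8).add ((pbL.sub (PB2.const _)).pow 8))
  have p4 : PB2 (fun K L => ((K:ℝ) - mean a) ^ 4 + ((L:ℝ) - mean a) ^ 4) :=
    (((pbK.sub (PB2.const _)).pow 4).add ((pbL.sub (PB2.const _)).pow 4))
  have q1 : PB2 (fun K L => (101/100) ^ 7 / 256 * (((K:ℝ) - mean a) ^ 8 +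
      ((L:ℝ) - mean a) ^ 8) + 101 ^ 7 * (9/8) ^ 8) := ((PB2.const _).mul p8).add (PB2.const _)
  have q2 : PB2 (fun K L => 8 * ((((K:ℝ) - mean a) ^ 4 + ((L:ℝ) - mean a) ^ 4) +
      (mean a + 1) ^ 4)) := (PB2.const 8).mul (p4.add (PB2.const _))
  have q3 : PB2 (fun K L => (110000:ℝ) * (8 * ((((K:ℝ) - mean a) ^ 4 + ((L:ℝ) - mean a) ^ 4) +
      (mean a + 1) ^ 4))) := (PB2.const 110000).mul q2
  have hle : ∀ K L, H K L (fun k => ((k:ℝ) - m1) ^ 8) ≤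
      (101/100) ^ 7 * ((101/100) ^ 7 / 256 * (((K:ℝ) - mean a) ^ 8 +
      ((L:ℝ) - mean a) ^ 8) + 101 ^ 7 * (9/8) ^ 8) +
      101 ^ 7 * (110000 * (8 * ((((K:ℝ) - mean a) ^ 4 + ((L:ℝ) - mean a) ^ 4) +
      (mean a + 1) ^ 4))) := by
    intro K L
    have r1 := H_eighth h1 h2 K L m1
    have r2 := hm_eighth (K := K) (L := L) g0 g1
    have r3 : ((K:ℝ) + 1) ^ 4 ≤ 8 * ((((K:ℝ) - mean a) ^ 4 + ((L:ℝ) - mean a) ^ 4) +
      (mean a + 1) ^ 4) := by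
      have hy : 0 ≤ ((L:ℝ) - mean a) ^ 4 := Even.pow_nonneg (by decide) _
      have hx : ((K:ℝ) - mean a + (mean a + 1)) ^ 4 ≤
          8 * (((K:ℝ) - mean a) ^ 4 + (mean a + 1) ^ 4) := by
        set x := (K:ℝ) - mean a
        set y := mean a + 1
        nlinarith [sq_nonneg (x - y), sq_nonneg (x + y), sq_nonneg (x ^ 2 - y ^ 2),
          sq_nonneg (x * y), mul_nonneg (sq_nonneg (x - y)) (sq_nonneg (x + y)),
          mul_nonneg (sq_nonneg (x - y)) (sq_nonneg (x - y)),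
          mul_nonneg (sq_nonneg (x - y)) (sq_nonneg x), mul_nonneg (sq_nonneg (x - y)) (sq_nonneg y)]
      have e : (K:ℝ) + 1 = (K:ℝ) - mean a + (mean a + 1) := by ring
      rw [e]
      linarith
    nlinarith
  have hfin := hAM.Ew_mono hp (((PB2.const ((101/100) ^ 7)).mul q1).add
    ((PB2.const (101 ^ 7)).mul q3)) hle
  rw [hAM.Ew_add ((PB2.const ((101/100) ^ 7)).mul q1) ((PB2.const (101 ^ 7)).mul q3),
    Ew_const_mul, Ew_const_mul, Ew_const_mul, Ew_const_mul,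
    hAM.Ew_add ((PB2.const _).mul p8) (PB2.const _), Ew_const_mul, hAM.Ew_const,
    hAM.Ew_add p4 (PB2.const _), hAM.Ew_const] at hfin
  rw [hm8]
  refine hfin.trans ?_
  exact t8_arith hmu (by linarith) hC8 (by linarith) e11 e12 ha.m8_le

end Pool.Agent.Q284.MK
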