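import Pool.Agent.Q291.MK.Stm

/-!
# Migdal-Kadanoff project: mean and variance of `T a`
-/

namespace Pool.Agent.Q284.MK

open Pool.Agent.Q291.MK

noncomputable def gg (K L : ℕ) : ℝ := ((K:ℝ) - L) ^ 2 / (K + L + 1/2)
noncomputable def iv (K L : ℕ) : ℝ := 1 / ((K:ℝ) + L + 1/2)
noncomputable def XX (m : ℝ) (K L : ℕ) : ℝ := (K:ℝ) + L - 2 * m

lemma den_pos (K L : ℕ) : (0:ℝ) < (K:ℝ) + L + 1/2 := by positivity

lemma iv_nonneg (K L : ℕ) : 0 ≤ iv K L := by unfold iv; positivity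
lemma iv_le (K L : ℕ) : iv K L ≤ 2 := by
  unfold iv
  rw [div_le_iff₀ (den_pos K L)]
  have h1 : (0:ℝ) ≤ K := Nat.cast_nonneg K
  have h2 : (0:ℝ) ≤ L := Nat.cast_nonneg L
  linarith
lemma gg_nonneg (K L : ℕ) : 0 ≤ gg K L := by unfold gg; positivity

lemma pbK : PB2 (fun K _ => (K:ℝ)) := PB2.fst PB.id
lemma pbL : PB2 (fun _ L => (L:ℝ)) := PB2.snd PB.id
lemma pb_iv : PB2 iv := PB2.bdd 2 fun K L => by rw [abs_of_nonneg (iv_nonneg K L)]; exact iv_le K L
lemma pb_XX (m : ℝ) : PB2 (XX m) := (pbK.add pbL).sub (PB2.const _)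
lemma pb_gg : PB2 gg := by
  have h := ((pbK.sub pbL).pow 2).mul pb_iv
  have e : (fun K L : ℕ => ((K:ℝ) - L) ^ 2 * iv K L) = gg := by
    funext K L; unfold gg iv; ring
  rw [e] at h; exact h
lemma pb_hm : PB2 hm := by
  have h := (pbK.mul pbL).mul pb_iv
  have e : (fun K L : ℕ => (K:ℝ) * L * iv K L) = hm := by
    funext K L; unfold hm iv; ring
  rw [e] at h; exact h

lemma four_hm (m : ℝ) (K L : ℕ) :
    4 * hm K L = (XX m K L + (2 * m - 1/2)) + (1/4 * iv K L - gg K L) := by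
  unfold hm XX iv gg
  have h := (den_pos K L).ne'
  field_simp
  ring

lemma ew_hm {a : ℕ → ℝ} (ha : AM a) (m : ℝ) :
    4 * Ew a hm = Ew a (XX m) + (2 * m - 1/2) + (1/4 * Ew a iv - Ew a gg) := by
  have e1 : 4 * Ew a hm = Ew a (fun K L => 4 * hm K L) := (Ew_const_mul 4 hm).symm
  have e2 : (fun K L => 4 * hm K L) =
      fun K L => (XX m K L + (2 * m - 1/2)) + (1/4 * iv K L - gg K L) := by
    funext K L; exact four_hm m K L
  rw [e1, e2]
  rw [ha.Ew_add (φ := fun K L => XX m K L + (2 * m - 1/2)) (ψ := fun K L => 1/4 * iv K L - gg K L)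
    ((pb_XX m).add (PB2.const _)) (((PB2.const (1/4)).mul pb_iv).sub pb_gg)]
  rw [ha.Ew_add (φ := XX m) (ψ := fun _ _ => 2 * m - 1/2) (pb_XX m) (PB2.const _)]
  rw [ha.Ew_sub (φ := fun K L => 1/4 * iv K L) (ψ := gg) ((PB2.const (1/4)).mul pb_iv) pb_gg]
  rw [ha.Ew_const, Ew_const_mul]

lemma gg_le (K L : ℕ) : gg K L ≤ K + L := by
  unfold gg
  rw [div_le_iff₀ (den_pos K L)]
  have h1 : (0:ℝ) ≤ K := Nat.cast_nonneg K
  have h2 : (0:ℝ) ≤ L := Nat.cast_nonneg L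
  nlinarith [mul_nonneg h1 h2]

lemma hv_near (K L : ℕ) : |hv K L - ((K:ℝ) + L) / 16| ≤ gg K L + 1 := by
  rcases Nat.eq_zero_or_pos (K + L) with h0 | h0
  · obtain ⟨rfl, rfl⟩ : K = 0 ∧ L = 0 := by omega
    simp [hv, hm, gg]
  have hn : (1:ℝ) ≤ (K:ℝ) + L := by exact_mod_cast h0
  have hP := four_hm 0 K L
  have hiv0 := iv_nonneg K L
  have hivn : iv K L ≤ 2/3 := by
    unfold iv; rw [div_le_iff₀ (den_pos K L)]; linarith
  have hg0 := gg_nonneg K L
  have hh0 : 0 ≤ hm K L := by unfold hm; positivity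
  unfold XX at hP
  set n : ℝ := (K:ℝ) + L with hndef
  set g := gg K L
  set i := iv K L
  have hden : 0 < n - 1/2 := by linarith
  have hvv : hv K L * (16 * (n - 1/2)) = (4 * hm K L) * (4 * hm K L + 2) := by
    unfold hv
    rw [← hndef, div_mul_eq_mul_div, div_eq_iff hden.ne']
    ring
  set s : ℝ := 1/2 - 1/4 * i + g with hs
  have hP' : 4 * hm K L = n - s := by rw [hP, hs]; ring
  have hs0 : 0 ≤ s := by rw [hs]; linarith
  have hsn : s ≤ n := by linarith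
  rw [hP'] at hvv
  rw [abs_le]
  have hsg : s ≤ 1/2 + g := by rw [hs]; linarith
  constructor
  · have h1 : (n / 16 - (g + 1)) * (16 * (n - 1/2)) ≤ hv K L * (16 * (n - 1/2)) := by
      rw [hvv]
      nlinarith [mul_nonneg hs0 (by linarith : (0:ℝ) ≤ n - s), mul_nonneg hg0 (by linarith : (0:ℝ) ≤ n - 1), mul_nonneg hs0 (by linarith : (0:ℝ) ≤ n - 1)]
    have := le_of_mul_le_mul_right h1 (by linarith)
    linarith
  · have h1 : hv K L * (16 * (n - 1/2)) ≤ (n / 16 + (g + 1)) * (16 * (n - 1/2)) := by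
      rw [hvv]
      nlinarith [mul_nonneg hs0 (by linarith : (0:ℝ) ≤ n - s), mul_nonneg hg0 (by linarith : (0:ℝ) ≤ n - 1), mul_nonneg hs0 (by linarith : (0:ℝ) ≤ n - 1)]
    have := le_of_mul_le_mul_right h1 (by linarith)
    linarith

/-- Second moment of `j - c` under `hyp K L`. -/
lemma H_lin2 (h1 : P_HYP1) (K L : ℕ) (c : ℝ) :
    H K L (fun j => ((j:ℝ) - c) ^ 2) = hv K L + (hm K L - c) ^ 2 := by
  obtain ⟨-, -, -, hone, -, -, hmean, hvar, -⟩ := h1 K L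
  have e : H K L (fun j => ((j:ℝ) - c) ^ 2) =
      H K L (fun j => ((j:ℝ) - hm K L) ^ 2) + 2 * (hm K L - c) * (H K L (fun j => (j:ℝ)) -
        hm K L * H K L (fun _ => 1)) + (hm K L - c) ^ 2 * H K L (fun _ => 1) := by
    unfold H
    simp only [Finset.mul_sum, ← Finset.sum_sub_distrib, ← Finset.sum_add_distrib]
    refine Finset.sum_congr rfl fun j _ => ?_
    ring
  rw [e, hone, hmean, hvar]; ring

lemma vr_T (h1 : P_HYP1) (h2 : P_TLAW) {a : ℕ → ℝ} (ha : AM a) :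
    mean (T a) = Ew a hm ∧ PB2 hv ∧
    vr (T a) = Ew a hv + Ew a (fun K L => (hm K L - mean (T a)) ^ 2) := by
  obtain ⟨hT, hE⟩ := h2 a ha
  have e1 : mean (T a) = Ew a hm := by
    unfold mean
    rw [(hE _ PB.id).2]
    congr 1; funext K L; exact (h1 K L).2.2.2.2.2.2.1
  have key : ∀ c : ℝ, PB2 (fun K L => hv K L + (hm K L - c) ^ 2) ∧
      E (T a) (fun k => ((k:ℝ) - c) ^ 2) = Ew a (fun K L => hv K L + (hm K L - c) ^ 2) := by
    intro c
    have h := hE (fun k => ((k:ℝ) - c) ^ 2) ((PB.id.sub (PB.const c)).pow 2)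
    have e : (fun K L => H K L (fun k => ((k:ℝ) - c) ^ 2)) =
        fun K L => hv K L + (hm K L - c) ^ 2 := by
      funext K L; exact H_lin2 h1 K L c
    rw [e] at h; exact h
  have hpv : PB2 hv := by
    have h := (key 0).1.sub ((pb_hm.sub (PB2.const 0)).pow 2)
    have e : (fun K L => hv K L + (hm K L - 0) ^ 2 - (hm K L - 0) ^ 2) = hv := by
      funext K L; ring
    rw [e] at h; exact h
  refine ⟨e1, hpv, ?_⟩
  unfold vr
  rw [(key (mean (T a))).2]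
  exact ha.Ew_add hpv ((pb_hm.sub (PB2.const _)).pow 2)

/-- The analytic heart of the variance: everything reduced to real numbers. -/
lemma vr_arith {mu V D D8 c ex ei eg ehv ehm eX2 eXi eXg eR : ℝ}
    (hmu : 10 ≤ mu) (hD : 0 < D) (hD8 : 0 < D8) (hV0 : 0 ≤ V) (hVm : V ≤ mu)
    (hex : |ex + 3/2 * (V/mu)| ≤ D/mu) (heg : |eg - V/mu| ≤ D/mu)
    (hei0 : 0 ≤ ei) (hei : ei ≤ D8/mu)
    (hc : c = -(ex) - 1/4 * ei + eg)
    (hhv : |ehv - (ex + 2*mu)/16| ≤ eg + 1)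
    (hX2 : |eX2 - 2*V| ≤ D) (hXi : |eXi| ≤ 1 + 2*mu*ei) (hXg : |eXg| ≤ D)
    (hR0 : 0 ≤ eR) (hR : eR ≤ 3 * (c^2 + 1/4 + D8))
    (hhm : 16 * ehm = eX2 + 2 * (c * ex + 1/4 * eXi - eXg) + eR) :
    |ehv + ehm - (mu/8 + V/8)| ≤ 100 * (1 + D + D8) ^ 2 := by
  have hmu0 : 0 < mu := by linarith
  have hVmu0 : 0 ≤ V/mu := by positivity
  have hVmu : V/mu ≤ 1 := by rw [div_le_one hmu0]; exact hVm
  have hDmu0 : 0 ≤ D/mu := by positivity
  have hDmu : D/mu ≤ D/10 := by gcongr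
  have hD8mu : D8/mu ≤ D8/10 := by gcongr
  have hei2 : mu * ei ≤ D8 := by
    rw [le_div_iff₀ hmu0] at hei; linarith
  rw [abs_le] at hex heg hhv hX2 hXi hXg
  have hexb : |ex| ≤ 3/2 + D/10 := by rw [abs_le]; constructor <;> linarith
  have hcb : |c| ≤ 5/2 + D/5 + D8/40 := by rw [hc, abs_le]; constructor <;> linarith
  have hcx : |c * ex| ≤ (5/2 + D/5 + D8/40) * (3/2 + D/10) := by
    rw [abs_mul]; exact mul_le_mul hcb hexb (abs_nonneg _) (by positivity)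
  have hc2 : c ^ 2 ≤ (5/2 + D/5 + D8/40) ^ 2 := by
    rw [← sq_abs]; exact pow_le_pow_left₀ (abs_nonneg _) hcb 2
  rw [abs_le] at hcx
  have hsum : |16 * ehv + 16 * ehm - (2*mu + 2*V)| ≤
      (3/2 + D/10) + 16 * (2 + D/10) + D + 2 * ((5/2 + D/5 + D8/40) * (3/2 + D/10)
        + 1/4 * (1 + 2*D8) + D) + 3 * ((5/2 + D/5 + D8/40) ^ 2 + 1/4 + D8) := by
    rw [abs_le] at hexb
    rw [hhm, abs_le]
    constructor <;> nlinarith
  rw [abs_le] at hsum ⊢
  constructor <;> nlinarith [mul_pos hD hD8, sq_nonneg D, sq_nonneg D8]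

lemma vr_nonneg {a : ℕ → ℝ} (ha : AM a) : 0 ≤ vr a := by
  have h := ha.E_mono (PB.const 0) ((PB.id.sub (PB.const (mean a))).pow 2)
    (fun k => sq_nonneg _)
  rw [ha.toLaw.E_const] at h; exact h

lemma ew_XXiv {a : ℕ → ℝ} (ha : AM a) {m : ℝ} (hm0 : 0 ≤ m) :
    |Ew a (fun K L => XX m K L * iv K L)| ≤ 1 + 2 * m * Ew a iv := by
  have h1 := ha.abs_Ew_le ((pb_XX m).mul pb_iv)
  refine h1.trans ?_
  have h2 : Ew a (fun K L => 1 + 2 * m * iv K L) = 1 + 2 * m * Ew a iv := by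
    rw [ha.Ew_add (φ := fun _ _ => 1) (ψ := fun K L => 2 * m * iv K L) (PB2.const 1)
      ((PB2.const (2 * m)).mul pb_iv), ha.Ew_const, Ew_const_mul]
  rw [← h2]
  refine ha.Ew_mono ((pb_XX m).mul pb_iv).abs
    ((PB2.const 1).add ((PB2.const (2 * m)).mul pb_iv)) fun K L => ?_
  rw [abs_mul, abs_of_nonneg (iv_nonneg K L)]
  have h3 : |XX m K L| ≤ (K:ℝ) + L + 1/2 + 2 * m := by
    have hk : (0:ℝ) ≤ K := Nat.cast_nonneg K
    have hl : (0:ℝ) ≤ L := Nat.cast_nonneg L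
    unfold XX; rw [abs_le]; constructor <;> linarith
  have h4 : ((K:ℝ) + L + 1/2) * iv K L = 1 := by
    unfold iv; exact mul_one_div_cancel (den_pos K L).ne'
  calc |XX m K L| * iv K L ≤ ((K:ℝ) + L + 1/2 + 2 * m) * iv K L :=
        mul_le_mul_of_nonneg_right h3 (iv_nonneg K L)
    _ = ((K:ℝ) + L + 1/2) * iv K L + 2 * m * iv K L := by ring
    _ = 1 + 2 * m * iv K L := by rw [h4]

lemma ew_hv {a : ℕ → ℝ} (ha : AM a) (hpv : PB2 hv) (m : ℝ) :
    |Ew a hv - (Ew a (XX m) + 2 * m) / 16| ≤ Ew a gg + 1 := by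
  have e1 : (Ew a (XX m) + 2 * m) / 16 = Ew a (fun K L => 1/16 * (XX m K L + 2 * m)) := by
    rw [Ew_const_mul, ha.Ew_add (φ := XX m) (ψ := fun _ _ => 2 * m) (pb_XX m) (PB2.const _),
      ha.Ew_const]
    ring
  have p1 : PB2 (fun K L => 1/16 * (XX m K L + 2 * m)) :=
    (PB2.const (1/16)).mul ((pb_XX m).add (PB2.const _))
  have e2 : Ew a gg + 1 = Ew a (fun K L => gg K L + 1) := by
    rw [ha.Ew_add (φ := gg) (ψ := fun _ _ => 1) pb_gg (PB2.const _), ha.Ew_const]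
  rw [e1, ← ha.Ew_sub hpv p1, e2]
  refine (ha.abs_Ew_le (hpv.sub p1)).trans ?_
  refine ha.Ew_mono (hpv.sub p1).abs (pb_gg.add (PB2.const 1)) fun K L => ?_
  have h := hv_near K L
  have e : (1:ℝ)/16 * (XX m K L + 2 * m) = ((K:ℝ) + L) / 16 := by unfold XX; ring
  rw [e]; exact h

lemma ew_sq {a : ℕ → ℝ} (ha : AM a) (m c m1 : ℝ) (hc : c = 2 * m - 1/2 - 4 * m1) :
    16 * Ew a (fun K L => (hm K L - m1) ^ 2) =
      Ew a (fun K L => XX m K L ^ 2) + 2 * (c * Ew a (XX m) +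
        1/4 * Ew a (fun K L => XX m K L * iv K L) - Ew a (fun K L => XX m K L * gg K L)) +
      Ew a (fun K L => (c + 1/4 * iv K L - gg K L) ^ 2) := by
  have pX := pb_XX m
  have pR : PB2 (fun K L => (c + 1/4 * iv K L - gg K L) ^ 2) :=
    (((PB2.const c).add ((PB2.const (1/4)).mul pb_iv)).sub pb_gg).pow 2
  have e : (fun K L => 16 * (hm K L - m1) ^ 2) = fun K L =>
      (XX m K L ^ 2 + 2 * ((c * XX m K L + 1/4 * (XX m K L * iv K L)) - XX m K L * gg K L)) +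
        (c + 1/4 * iv K L - gg K L) ^ 2 := by
    funext K L
    have h := four_hm m K L
    have h' : 4 * (hm K L - m1) = XX m K L + (c + 1/4 * iv K L - gg K L) := by
      rw [hc]; linarith
    have : 16 * (hm K L - m1) ^ 2 = (4 * (hm K L - m1)) ^ 2 := by ring
    rw [this, h']; ring
  have p1 : PB2 (fun K L => c * XX m K L) := (PB2.const c).mul pX
  have p2 : PB2 (fun K L => 1/4 * (XX m K L * iv K L)) := (PB2.const (1/4)).mul (pX.mul pb_iv)
  have p3 : PB2 (fun K L => XX m K L * gg K L) := pX.mul pb_gg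
  have p4 : PB2 (fun K L => 2 * ((c * XX m K L + 1/4 * (XX m K L * iv K L)) -
      XX m K L * gg K L)) := (PB2.const 2).mul ((p1.add p2).sub p3)
  rw [← Ew_const_mul, e, ha.Ew_add ((pX.pow 2).add p4) pR, ha.Ew_add (pX.pow 2) p4,
    Ew_const_mul, ha.Ew_sub (p1.add p2) p3, ha.Ew_add p1 p2, Ew_const_mul, Ew_const_mul]

theorem t_TM (h1 : P_HYP1) (h2 : P_TLAW) (h3 : P_EXP) : P_TM := by
  intro C3 C8 hC3 hC8
  obtain ⟨D8, hD8, h⟩ := h3 C8 hC8
  obtain ⟨D, M, hD, hM, h⟩ := h C3 hC3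
  refine ⟨100 * (1 + D + D8) ^ 2, M, by positivity, hM, fun a ha hm' => ?_⟩
  obtain ⟨e1, e2, e3, e4, e5, e6, e7, e8, e9, e10, e11, e12⟩ := h a ha hm'
  have hAM : AM a := ha.toAM
  have hmu : 10 ≤ mean a := hM.trans hm'
  have hmu0 : 0 < mean a := by linarith
  obtain ⟨f1, hpv, f2⟩ := vr_T h1 h2 hAM
  have hew := ew_hm hAM (mean a)
  rw [← f1] at hew
  have hV0 := vr_nonneg hAM
  have hV := ha.vr_le
  have g1 : |Ew a (XX (mean a)) + 3/2 * (vr a / mean a)| ≤ D / mean a := e1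
  have g5 : |Ew a gg - vr a / mean a| ≤ D / mean a := e5
  have g10 : Ew a iv ≤ D8 / mean a := e10
  have g10' : 0 ≤ Ew a iv := by
    have h := hAM.Ew_mono (PB2.const 0) pb_iv (fun K L => iv_nonneg K L)
    rw [hAM.Ew_const] at h; exact h
  constructor
  · have hD8mu : 0 ≤ D8 / mean a := by positivity
    have hDmu : 0 ≤ D / mean a := by positivity
    have hfin : 2 * (D / mean a) + D8 / mean a ≤ 100 * (1 + D + D8) ^ 2 / mean a := by
      rw [mul_div_assoc', ← add_div]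
      gcongr
      nlinarith [mul_pos hD hD8, sq_nonneg D, sq_nonneg D8]
    rw [abs_le] at g1 g5 ⊢
    constructor <;> linarith
  · rw [f2]
    set c : ℝ := 2 * mean a - 1/2 - 4 * mean (T a) with hc
    have hsq := ew_sq hAM (mean a) c (mean (T a)) hc
    have hR0 : 0 ≤ Ew a (fun K L => (c + 1/4 * iv K L - gg K L) ^ 2) := by
      have h := hAM.Ew_mono (PB2.const 0)
        ((((PB2.const c).add ((PB2.const (1/4)).mul pb_iv)).sub pb_gg).pow 2)
        (fun K L => sq_nonneg _)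
      rw [hAM.Ew_const] at h; exact h
    have hR : Ew a (fun K L => (c + 1/4 * iv K L - gg K L) ^ 2) ≤ 3 * (c ^ 2 + 1/4 + D8) := by
      have h := hAM.Ew_mono
        ((((PB2.const c).add ((PB2.const (1/4)).mul pb_iv)).sub pb_gg).pow 2)
        ((PB2.const 3).mul ((PB2.const (c ^ 2 + 1/4)).add (pb_gg.pow 2)))
        (fun K L => by
          have h0 := iv_nonneg K L
          have h2 := iv_le K L
          have h4 : (1/4 * iv K L) ^ 2 ≤ 1/4 := by nlinarith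
          have : (c + 1/4 * iv K L - gg K L) ^ 2 ≤
              3 * (c ^ 2 + (1/4 * iv K L) ^ 2 + gg K L ^ 2) := by
            nlinarith [sq_nonneg (c - 1/4 * iv K L), sq_nonneg (c + gg K L),
              sq_nonneg (1/4 * iv K L + gg K L)]
          linarith)
      rw [Ew_const_mul, hAM.Ew_add (PB2.const _) (pb_gg.pow 2), hAM.Ew_const] at h
      have g6 : Ew a (fun K L => gg K L ^ 2) ≤ D8 := e6
      linarith
    refine vr_arith (c := c) hmu hD hD8 hV0 hV g1 g5 g10' g10 ?_ (ew_hv hAM hpv (mean a))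
      e2 (ew_XXiv hAM hmu0.le) e8 hR0 hR hsq
    linarith

end Pool.Agent.Q284.MK
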